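import Mathlib

set_option autoImplicit false

namespace Pool.Agent.Results.MP_efdca5_co.Bound

open SimpleGraph Finset

/-- `y_G(A) = 2 c(G - A) - |A| - 1` -/
noncomputable def y {V : Type} (G : SimpleGraph V) (A : Set (Sym2 V)) : ℤ :=
  2 * (Nat.card (G.deleteEdges A).ConnectedComponent : ℤ) - A.ncard - 1

lemma L1 {V W : Type} [Finite W] (G : SimpleGraph V) (hG : G.Connected) (m : V → W)
    (hm : Function.Surjective m) (F : Finset (Sym2 V))
    (h : ∀ R : W → W → Prop, Equivalence R → (∀ x y, s(x, y) ∈ F → R (m x) (m y)) →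
      ∀ x y, G.Adj x y → R (m x) (m y)) : Nat.card W ≤ F.card + 1 := by
  let Γ : SimpleGraph W := fromEdgeSet (Sym2.map m '' F)
  have h1 := h Γ.Reachable ⟨.refl, .symm, .trans⟩ fun x y e => by
    by_cases c : m x = m y
    · rw [c]
    · exact Adj.reachable (by rw [fromEdgeSet_adj]; exact ⟨⟨_, e, rfl⟩, c⟩)
  have h2 : Γ.Connected := by
    have : Nonempty W := hG.nonempty.map m
    refine ⟨fun a b => ?_⟩
    obtain ⟨a, rfl⟩ := hm a
    obtain ⟨b, rfl⟩ := hm b
    obtain ⟨p⟩ := hG a b
    induction p with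
    | nil => rfl
    | cons e _ ih => exact (h1 _ _ e).trans ih
  refine h2.card_vert_le_card_edgeSet_add_one.trans (Nat.add_le_add_right ?_ 1)
  rw [Nat.card_coe_set_eq, ← Set.ncard_coe_finset]
  exact (Set.ncard_le_ncard (by rw [edgeSet_fromEdgeSet]; exact Set.sdiff_subset) (F.finite_toSet.image _)).trans
    (Set.ncard_image_le F.finite_toSet)

lemma ch (t : ℕ) : 2 * t ≤ 3 + t.choose 2 ∧ t ≤ 1 + t.choose 2 ∧ (4 ≤ t → 2 * t ≤ 2 + t.choose 2) := by
  induction t with
  | zero => simp
  | succ t ih =>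
    rw [Nat.choose_succ_succ' t 1, Nat.choose_one_right]
    rcases Nat.lt_or_ge t 4 with h | h
    · interval_cases t <;> decide
    · have := ih.2.2 h; simp only [Nat.reduceAdd]; omega

theorem result {V : Type} [Finite V] [Nonempty V] (G : SimpleGraph V) (l : ℕ) (hl : l = 1 ∨ l = 2)
    (he : G.IsEdgeConnected l) (h3 : IsEmpty (G ≃g cycleGraph 3)) (A : Set (Sym2 V))
    (hA : A ⊆ G.edgeSet) : y G A ≤ 2 * (Gᶜ.chromaticNumber.toNat : ℤ) - l + 1 := by
  classical
  have := Fintype.ofFinite V
  have hc : G.Connected := he.connected (by omega)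
  obtain ⟨f⟩ := colorable_chromaticNumber_of_fintype Gᶜ
  generalize Gᶜ.chromaticNumber.toNat = θ at f ⊢
  have adj : ∀ a b, a ≠ b → f a = f b → G.Adj a b := fun a b n e => by
    by_contra c; exact f.valid ((compl_adj _ _ _).2 ⟨n, c⟩) e
  let m := (G.deleteEdges A).connectedComponentMk
  have hm : Function.Surjective m := Quot.mk_surjective
  have inA : ∀ a b, G.Adj a b → m a ≠ m b → s(a, b) ∈ A := fun a b e n => by
    by_contra c; exact n (ConnectedComponent.sound (deleteEdges_adj.2 ⟨e, c⟩).reachable)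
  let key : V → _ := fun v => (f v, m v)
  let rep : V → V := fun v => Function.invFun key (key v)
  have hk : ∀ v, key (rep v) = key v := fun v => Function.invFun_eq ⟨v, rfl⟩
  have hf : ∀ v, f (rep v) = f v := fun v => congrArg Prod.fst (hk v)
  have hr : ∀ v, m (rep v) = m v := fun v => congrArg Prod.snd (hk v)
  let R : Fin θ → Finset V := fun q => (univ.image rep).filter fun v => f v = q
  have mR : ∀ q v, v ∈ R q ↔ rep v = v ∧ f v = q := fun q v => by
    simp only [R, mem_filter, mem_image, mem_univ, true_and]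
    refine and_congr_left fun _ => ⟨?_, fun h => ⟨v, h⟩⟩
    rintro ⟨w, rfl⟩
    show Function.invFun key (key (rep w)) = _
    rw [hk]
  have rR : ∀ v, rep v ∈ R (f v) := fun v => mem_filter.2 ⟨mem_image_of_mem _ (mem_univ v), hf v⟩
  have dif : ∀ q, ∀ a ∈ R q, ∀ b ∈ R q, a ≠ b → m a ≠ m b := fun q a ha b hb n e => n (by
    rw [mR] at ha hb
    rw [← ha.1, ← hb.1]
    show Function.invFun key (f a, m a) = Function.invFun key (f b, m b)
    rw [e, ha.2, hb.2])
  let Q := univ.image f
  have hQ : Q.card ≤ θ := by simpa using card_le_univ Q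
  let root : Fin θ → V := fun q => rep (Function.invFun f q)
  have rt : ∀ v, root (f v) ∈ R (f v) := fun v => by
    have := rR (Function.invFun f (f v))
    rwa [Function.invFun_eq (f := f) ⟨v, rfl⟩] at this
  let B := Q.biUnion fun q => ((R q).erase (root q)).image fun v => s(root q, v)
  let T := ∑ q ∈ Q, (R q).card
  have hB : B.card + Q.card ≤ T := by
    rw [card_eq_sum_ones Q]
    refine (Nat.add_le_add_right card_biUnion_le _).trans ?_
    rw [← sum_add_distrib]
    refine sum_le_sum fun q hq => ?_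
    obtain ⟨v, -, rfl⟩ := mem_image.1 hq
    rw [← card_erase_add_one (rt v)]
    exact Nat.add_le_add_right card_image_le _
  set c := Nat.card (G.deleteEdges A).ConnectedComponent with hcc
  have hT : c ≤ T := by
    rw [hcc, Nat.card_eq_fintype_card]
    refine le_trans ?_ (card_biUnion_le (s := Q) (t := R))
    refine card_le_card_of_surjOn m fun x _ => ?_
    obtain ⟨v, rfl⟩ := hm x
    exact ⟨rep v, by simpa [Q] using ⟨v, rR v⟩, hr v⟩
  let A' := A.toFinset
  have hA' : A.ncard = A'.card := Set.ncard_eq_toFinset_card' A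
  let A1 := A'.filter fun e => (e.map f).IsDiag
  let A2 := A'.filter fun e => ¬ (e.map f).IsDiag
  have h12 : A1.card + A2.card = A'.card := card_filter_add_card_filter_not _
  let E := fun q => (R q).offDiag.image Sym2.mk.uncurry
  have hE : ∀ q, ∀ e ∈ E q, ∃ a ∈ R q, ∃ b ∈ R q, a ≠ b ∧ e = s(a, b) := fun q e h => by
    obtain ⟨⟨a, b⟩, k, rfl⟩ := mem_image.1 h
    rw [mem_offDiag] at k
    exact ⟨a, k.1, b, k.2.1, k.2.2, rfl⟩
  have cE : ∀ q, (E q).card = (R q).card.choose 2 := fun q => Sym2.card_image_offDiag _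
  have sE : ∀ q, E q ⊆ A1 := fun q e h => by
    obtain ⟨a, ha, b, hb, n, rfl⟩ := hE q e h
    have := ((mR _ _).1 ha).2.trans ((mR _ _).1 hb).2.symm
    simpa [A1, A', this] using inA a b (adj a b n this) (dif q a ha b hb n)
  have h1 : ∑ q ∈ Q, (R q).card.choose 2 ≤ A1.card := by
    rw [← sum_congr rfl fun q _ => cE q, ← card_biUnion]
    · exact card_le_card (biUnion_subset.2 fun q _ => sE q)
    intro q _ q' _ n
    refine disjoint_left.2 fun e e1 e2 => n ?_
    obtain ⟨a, ha, b, hb, -, rfl⟩ := hE q e e1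
    obtain ⟨a', ha', b', hb', -, e⟩ := hE q' _ e2
    rw [mR] at ha ha' hb'
    rcases Sym2.eq_iff.1 e with ⟨rfl, -⟩ | ⟨rfl, -⟩
    exacts [ha.2.symm.trans ha'.2, ha.2.symm.trans hb'.2]
  have h2 : 2 * T ≤ 3 * Q.card + A1.card := by
    refine le_trans ?_ (Nat.add_le_add_left h1 _)
    rw [card_eq_sum_ones Q, mul_sum, mul_sum, ← sum_add_distrib]
    exact sum_le_sum fun q _ => (ch _).1
  have main : ∀ (G0 : SimpleGraph V) (F : Finset (Sym2 V)), G0.Connected → G0 ≤ G →
      (∀ e ∈ A2, e ∈ G0.edgeSet → e ∈ F) → c ≤ B.card + F.card + 1 := fun G0 F g1 g2 g3 => by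
    refine (L1 G0 g1 m hm (B ∪ F) fun r hr' h a b e => ?_).trans
      (Nat.add_le_add_right (card_union_le _ _) 1)
    have tr : ∀ v, r (m (root (f v))) (m v) := fun v => by
      rw [← hr v]
      by_cases k : rep v = root (f v)
      · rw [k]; exact hr'.refl _
      · exact h _ _ (mem_union_left _ (mem_biUnion.2 ⟨f v, by simp [Q],
          mem_image.2 ⟨rep v, mem_erase.2 ⟨k, rR v⟩, rfl⟩⟩))
    by_cases k : f a = f b
    · exact hr'.trans (hr'.symm (tr a)) (k ▸ tr b)
    by_cases k' : m a = m b
    · rw [k']; exact hr'.refl _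
    exact h _ _ (mem_union_right _ (g3 _ (by simpa [A2, A', k] using inA a b (g2 e) k') e))
  have m1 := main G A2 hc le_rfl fun e h _ => h
  rw [y, ← hcc, hA']
  rcases hl with rfl | rfl
  · omega
  rcases A2.eq_empty_or_nonempty with h0 | ⟨e, h0⟩
  swap
  · have := main (G.deleteEdges {e}) (A2.erase e) ⟨isEdgeConnected_two.1 he e⟩ (deleteEdges_le _)
      fun e' a b => mem_erase.2 ⟨by simp at b; exact b.2, a⟩
    have := card_erase_add_one h0
    omega
  rw [h0, card_empty] at m1 h12
  rcases Nat.lt_or_ge Q.card 2 with hq | hq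
  swap
  · omega
  obtain ⟨v⟩ := ‹Nonempty V›
  have allf : ∀ a, f a = f v := fun a => card_le_one.1 (Nat.lt_succ_iff.1 hq) _ (by simp [Q]) _ (by simp [Q])
  have eQ : Q = {f v} := by ext q; simp only [Q, mem_image, allf, mem_singleton]; simp [eq_comm]
  have θ1 := (f v).pos
  simp only [T, eQ, sum_singleton] at hT h1
  by_cases full : R (f v) = univ
  · rw [full, card_univ] at hT h1
    have := ch (Fintype.card V)
    have n3 : Fintype.card V ≠ 3 := fun n => h3.false (by
      have : G = ⊤ := by ext a b; exact ⟨fun h => h.ne, fun h => adj a b h (by rw [allf a, allf b])⟩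
      rw [this, cycleGraph_three_eq_top]
      exact Iso.completeGraph (Fintype.equivFinOfCardEq n))
    have n2 : Fintype.card V ≠ 2 := fun n => by
      have := Fintype.one_lt_card_iff_nontrivial.1 (by omega : 1 < Fintype.card V)
      have := he.le_degree (u := v)
      have := G.degree_lt_card_verts v
      omega
    omega
  · obtain ⟨x, hx⟩ : ∃ x, x ∉ R (f v) := by
      by_contra k; exact full (eq_univ_of_forall (by simpa using k))
    have rx : rep x ∈ R (f v) := allf x ▸ rR x
    let X := ((R (f v)).erase (rep x)).image fun w => s(x, w)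
    have cX : X.card + 1 = (R (f v)).card := by
      rw [card_image_of_injective _ fun a b e => Sym2.congr_right.1 e, card_erase_add_one rx]
    have : (E (f v)).card + X.card ≤ A1.card := by
      rw [← card_union_of_disjoint]
      · refine card_le_card (union_subset (sE _) fun e h => ?_)
        obtain ⟨w, hw, rfl⟩ := mem_image.1 h
        rw [mem_erase] at hw
        have k := dif _ _ rx w hw.2 hw.1.symm
        rw [hr] at k
        simpa [A1, A', allf] using inA x w (adj x w (fun e => k (by rw [e])) (by rw [allf, allf w])) k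
      refine disjoint_left.2 fun e e1 e2 => hx ?_
      obtain ⟨a, ha, b, hb, -, rfl⟩ := hE _ e e1
      obtain ⟨w, -, e⟩ := mem_image.1 e2
      rcases Sym2.eq_iff.1 e with ⟨rfl, -⟩ | ⟨rfl, -⟩
      exacts [ha, hb]
    have := ch (R (f v)).card
    have := cE (f v)
    omega

end Pool.Agent.Results.MP_efdca5_co.Bound
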